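import Pool.Agent.W477.CL.Stms

/-!
# Sizes of finite sets
-/

set_option maxHeartbeats 1000000
set_option linter.all false

namespace Pool.Agent.W366.OC

open FirstOrder FirstOrder.Language
open Pool.Agent.Helper672.ZFA hiding IsOrdPair IsPair Mem
open Pool.Agent.H310
open Pool.Agent.W924
open Pool.Agent.W477.CL

universe u

section

variable {M : Type u} [L.Structure M] [hM : IsModel M]
variable {γ δ : Type u} [ITy M γ] [ITy M δ]

open Classical in
theorem bn_insert {e : IFun M γ (INat M)} {s : IPow M γ} {n : INat M} (h : BN e s n) {a : γ}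
    (ha : ¬ a ∈ s) : ∃ e' : IFun M γ (INat M), BN e' (insert a s) n.succ := by
  obtain ⟨h1, h2, h3⟩ := h
  have he : IntF M (fun x => e x) := e.int
  have hf : IntF M (fun x : γ => if x = a then n else e x) :=
    IntF.ite (Int.eq IntF.id (IntF.const _)) (IntF.const _) he
  have hsa : ∀ x, x ∈ s → ¬ x = a := fun x hx h => ha (h ▸ hx)
  refine ⟨⟨_, hf⟩, fun x hx => ?_, fun x y hx hy hxy => ?_, fun m hm => ?_⟩
  · change (if x = a then n else e x) < n.succ
    rcases mem_insert.1 hx with rfl | hx
    · rw [if_pos rfl]
      exact INat.lt_succ_self n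
    · rw [if_neg (hsa x hx)]
      exact (h1 x hx).trans (INat.lt_succ_self n)
  · change (if x = a then n else e x) = (if y = a then n else e y) at hxy
    rcases mem_insert.1 hx with hx | hx <;> rcases mem_insert.1 hy with hy | hy
    · rw [hx, hy]
    · rw [if_pos hx, if_neg (hsa y hy)] at hxy
      exact absurd (h1 y hy) (by rw [← hxy]; exact lt_irrefl n)
    · rw [if_pos hy, if_neg (hsa x hx)] at hxy
      exact absurd (h1 x hx) (by rw [hxy]; exact lt_irrefl n)
    · rw [if_neg (hsa x hx), if_neg (hsa y hy)] at hxy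
      exact h2 x y hx hy hxy
  · rcases (INat.lt_succ_iff.1 hm).lt_or_eq with hm | rfl
    · obtain ⟨x, hx, h⟩ := h3 m hm
      refine ⟨x, mem_insert.2 (Or.inr hx), ?_⟩
      change (if x = a then n else e x) = m
      rw [if_neg (hsa x hx), h]
    · refine ⟨a, mem_insert.2 (Or.inl rfl), ?_⟩
      change (if a = a then m else e a) = m
      rw [if_pos rfl]

open Classical in
theorem bn_unique (n : INat M) : ∀ (s : IPow M γ) (e e' : IFun M γ (INat M)) (n' : INat M),
    BN e s n → BN e' s n' → n = n' := by
  have hI := int_BN (M := M) (α := γ)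
  refine INat.ind (p := fun n : INat M => ∀ (s : IPow M γ) (e e' : IFun M γ (INat M))
    (n' : INat M), BN e s n → BN e' s n' → n = n') ?_ ?_ ?_ n
  · (repeat' (first | with_reducible exact IntF.id | with_reducible exact IntF.fst' | with_reducible exact IntF.snd' | with_reducible exact IntF.const _ | with_reducible exact Int.const _ | assumption | with_reducible apply Int.and | with_reducible apply Int.or | with_reducible apply Int.not | with_reducible apply Int.imp | with_reducible apply Int.iff | with_reducible apply Int.ne | with_reducible apply Int.eq | with_reducible apply Int.mem | with_reducible apply Int.subset | with_reducible apply Int.ltN | with_reducible apply Int.leN | with_reducible apply Int.fin | with_reducible apply Int.unique | with_reducible apply Int.all | with_reducible apply Int.ex | with_reducible apply IntF.fst | with_reducible apply IntF.snd | with_reducible apply IntF.app | with_reducible apply IntF.ite | with_reducible apply IntF.sep | with_reducible apply IntF.lam | with_reducible apply IntF.insert | with_reducible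 apply IntF.singleton | with_reducible apply IntF.union | with_reducible apply IntF.inter | with_reducible apply IntF.sdiff | with_reducible apply IntF.isUnion | with_reducible apply IntF.iimage | with_reducible apply IntF.the | with_reducible apply IntF.irec | with_reducible_and_instances apply IntF.mul | with_reducible_and_instances apply IntF.inv | with_reducible_and_instances apply IntF.smul | with_reducible apply IntF.succ | with_reducible apply IntF.val | with_reducible apply IntF.mk | (with_reducible refine Int.comp ?_ ?_; assumption) | (with_reducible refine Int.comp₂ ?_ ?_ ?_; assumption) | (with_reducible refine Int.comp₃ ?_ ?_ ?_ ?_; assumption) | (with_reducible refine Int.comp₄ ?_ ?_ ?_ ?_ ?_; assumption) | (with_reducible refine IntF.comp ?_ ?_; assumption) | (with_reducible refine IntF.comp₂ ?_ ?_ ?_; assumption) | (with_reducible refine Helper672.ZFA.IntF.comp₃ ?_ ?_ ?_ ?_; assumption) | with_reducible apply IntF.pair))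
  · intro s e e' n' h h'
    by_contra hn
    have hn' : (0 : INat M) < n' := lt_of_le_of_ne (INat.zero_le n') hn
    obtain ⟨x, hx, -⟩ := h'.2.2 0 hn'
    exact INat.not_lt_zero (h.1 x hx)
  · intro n ih s e e' n' h h'
    obtain ⟨h1, h2, h3⟩ := h
    obtain ⟨h1', h2', h3'⟩ := h'
    obtain ⟨a, ha, hea⟩ := h3 n (INat.lt_succ_self n)
    have hms : ∀ x, x ∈ s \ {a} ↔ x ∈ s ∧ ¬ x = a := fun x => by
      rw [mem_sdiff, mem_singleton]
    rcases INat.eq_zero_or_succ n' with rfl | ⟨m, rfl⟩
    · exact absurd (h1' a ha) INat.not_lt_zero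
    have he' : IntF M (fun x => e' x) := e'.int
    have hf : IntF M (fun x : γ => if e' x = m then e' a else e' x) :=
      IntF.ite (Int.eq he' (IntF.const _)) (IntF.const _) he'
    rw [ih (s \ {a}) e ⟨_, hf⟩ m ⟨fun x hx => ?_, fun x y hx hy hxy => ?_, fun k hk => ?_⟩
      ⟨fun x hx => ?_, fun x y hx hy hxy => ?_, fun k hk => ?_⟩]
    · have hx := (hms x).1 hx
      refine lt_of_le_of_ne (INat.lt_succ_iff.1 (h1 x hx.1)) fun h => hx.2 ?_
      exact h2 x a hx.1 ha (h.trans hea.symm)
    · exact h2 x y ((hms x).1 hx).1 ((hms y).1 hy).1 hxy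
    · obtain ⟨x, hx, hk'⟩ := h3 k (hk.trans (INat.lt_succ_self n))
      refine ⟨x, (hms x).2 ⟨hx, fun h => ?_⟩, hk'⟩
      rw [h, hea] at hk'
      exact absurd hk (by rw [hk']; exact lt_irrefl k)
    · have hx := (hms x).1 hx
      change (if e' x = m then e' a else e' x) < m
      by_cases hxm : e' x = m
      · rw [if_pos hxm]
        refine lt_of_le_of_ne (INat.lt_succ_iff.1 (h1' a ha)) fun h => hx.2 ?_
        exact h2' x a hx.1 ha (hxm.trans h.symm)
      · rw [if_neg hxm]
        exact lt_of_le_of_ne (INat.lt_succ_iff.1 (h1' x hx.1)) hxm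
    · have hx := (hms x).1 hx
      have hy := (hms y).1 hy
      change (if e' x = m then e' a else e' x) = (if e' y = m then e' a else e' y) at hxy
      by_cases hxm : e' x = m <;> by_cases hym : e' y = m
      · exact h2' x y hx.1 hy.1 (hxm.trans hym.symm)
      · rw [if_pos hxm, if_neg hym] at hxy
        exact absurd (h2' a y ha hy.1 hxy).symm hy.2
      · rw [if_neg hxm, if_pos hym] at hxy
        exact absurd (h2' x a hx.1 ha hxy) hx.2
      · rw [if_neg hxm, if_neg hym] at hxy
        exact h2' x y hx.1 hy.1 hxy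
    · obtain ⟨x, hx, hk'⟩ := h3' k (hk.trans (INat.lt_succ_self m))
      by_cases hxa : x = a
      · obtain ⟨y, hy, hy'⟩ := h3' m (INat.lt_succ_self m)
        refine ⟨y, (hms y).2 ⟨hy, fun h => ?_⟩, ?_⟩
        · rw [h, ← hxa, hk'] at hy'
          exact absurd hk (by rw [hy']; exact lt_irrefl m)
        · change (if e' y = m then e' a else e' y) = k
          rw [if_pos hy', ← hxa, hk']
      · refine ⟨x, (hms x).2 ⟨hx, hxa⟩, ?_⟩
        change (if e' x = m then e' a else e' x) = k
        rw [if_neg, hk']
        rw [hk']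
        exact hk.ne

theorem sz_eq {e : IFun M γ (INat M)} {s : IPow M γ} {n : INat M} (h : BN e s n) : sz s = n :=
  the_eq ⟨n, ⟨e, h⟩, fun m ⟨e', h'⟩ => bn_unique m s e' e n h' h⟩ ⟨e, h⟩

theorem sz_ins (s : IPow M γ) (a : γ) (hs : IFin s) (ha : ¬ a ∈ s) :
    sz (insert a s) = (sz s).succ := by
  obtain ⟨e, n, h⟩ := exists_BN hs
  obtain ⟨e', h'⟩ := bn_insert h ha
  rw [sz_eq h, sz_eq h']

theorem sz_empty : sz (∅ : IPow M γ) = 0 := by
  refine sz_eq (e := ⟨fun _ => 0, IntF.const _⟩) ⟨fun a ha => ?_, fun a b ha => ?_,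
    fun m hm => ?_⟩
  · simp at ha
  · simp at ha
  · exact absurd hm INat.not_lt_zero

theorem sz_mono (t : IPow M γ) (ht : IFin t) : ∀ s : IPow M γ, s ⊆ t → sz s ≤ sz t := by
  refine IFin.ind (p := fun t : IPow M γ => ∀ s : IPow M γ, s ⊆ t → sz s ≤ sz t)
    (Int.all (Int.imp (Int.subset IntF.snd' IntF.fst') (Int.leN (int_sz IntF.snd')
      (int_sz IntF.fst')))) ?_ ?_ t ht
  · intro s hs
    have h : s = ∅ := IPow.ext' fun x => ⟨fun h => hs x h, fun h => absurd h (by simp)⟩
    rw [h]
  · intro t a ht ha ih s hs
    rw [sz_ins t a ht ha]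
    by_cases h : a ∈ s
    · have h1 : s = insert a (s \ {a}) := IPow.ext' fun x => by
        by_cases hx : x = a <;> simp [hx, h]
      have h2 : s \ {a} ⊆ t := fun x hx => by
        rw [mem_sdiff, mem_singleton] at hx
        exact (mem_insert.1 (hs x hx.1)).resolve_left hx.2
      rw [h1, sz_ins (s \ {a}) a (ht.subset h2) (by simp)]
      exact INat.succ_le_iff.2 (INat.lt_succ_iff.2 (ih _ h2))
    · exact (ih s fun x hx => (mem_insert.1 (hs x hx)).resolve_left fun h1 => h (h1 ▸ hx)).trans
        (INat.le_succ_self _)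

theorem sz_img (f : IFun M γ δ) (hf : Inj f) (s : IPow M γ) (hs : IFin s) :
    sz (iimage f s) = sz s := by
  have hi : IntF M (fun x => f x) := f.int
  refine IFin.ind (p := fun s : IPow M γ => sz (iimage f s) = sz s)
    (Int.eq (int_sz (IntF.iimage (f := fun _ x => f x) (IntF.comp hi IntF.snd') IntF.id))
      (int_sz IntF.id)) ?_ ?_ s hs
  · have h : iimage f (∅ : IPow M γ) = ∅ := IPow.ext' fun y => by
      rw [mem_iimage hi]
      simp
    rw [h, sz_empty, sz_empty]
  · intro s a hs ha ih
    have h : iimage f (insert a s) = insert (f a) (iimage f s) := IPow.ext' fun y => by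
      rw [mem_iimage hi, mem_insert, mem_iimage hi]
      constructor
      · rintro ⟨x, hx, rfl⟩
        rcases mem_insert.1 hx with rfl | hx
        · exact Or.inl rfl
        · exact Or.inr ⟨x, hx, rfl⟩
      · rintro (rfl | ⟨x, hx, rfl⟩)
        · exact ⟨a, mem_insert.2 (Or.inl rfl), rfl⟩
        · exact ⟨x, mem_insert.2 (Or.inr hx), rfl⟩
    have h' : ¬ f a ∈ iimage f s := fun h => by
      rw [mem_iimage hi] at h
      obtain ⟨x, hx, hxa⟩ := h
      exact ha (hf _ _ hxa ▸ hx)
    rw [h, sz_ins _ _ (hs.image hi) h', ih, sz_ins s a hs ha]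

end

theorem sz_holds : P_SZ.{u} := fun M _ _ =>
  { empty := fun γ _ => sz_empty
    ins := fun γ _ s a hs ha => sz_ins s a hs ha
    mono := fun γ _ s t ht hst => sz_mono t ht s hst
    img := fun γ δ _ _ s f hs hf => sz_img f hf s hs }

end Pool.Agent.W366.OC
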